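import Pool.Agent.Y130.MT.Final

/-!
# The Mumford-Tate conjecture from isolated Frobenius eigenvalues

Let `A` be an abelian variety over a finitely generated subfield `k` of the complex numbers, with
arbitrary endomorphisms but without factors of type III.  After a finite extension of `k`, the rational
Tate module of `A`, with coefficients extended to an algebraic closure `K` of `ℚ_ℓ`, is a direct
summand of a sum of copies of a representation `T` which is the sum of pairwise non-isomorphic
strongly irreducible representations `U c` (Faltings), with an alternating form `B` with the
multiplier `χ` (the cyclotomic character) that pairs `U c` with `U (star c)`; for instance `T` is the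
Tate module itself and is irreducible if the geometric endomorphism ring is `ℤ`.  Suppose that each
`U c` (if it is not a line) contains an eigenvector of some Frobenius element with an ISOLATED
eigenvalue `a`: `a` is a simple eigenvalue on `T`, and `a δ = β γ`, for Frobenius eigenvalues `β`, `γ`,
`δ` on `T`, holds, up to roots of unity, only in the trivial cases `β = a`, `γ = a` and `a δ = q`; and
that for `star c ≠ c` the determinant of some Frobenius element on `U c` is multiplicatively
independent of the determinants on the other `U d` and of `q`.  There is no condition on the other
eigenvalues (they can satisfy any number of multiplicative relations), nor on the slopes or on Galois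
groups.

Then all Tate classes in the tensor powers of `H^1(A)` are linear combinations of products of Hodge
classes of degree two: this is the Mumford-Tate conjecture for `A` (and these classes are algebraic,
so that the motivic Galois group is the same group).  Moreover, for EVERY representation `E` of the
Galois group (for instance the `ℓ`-adic realization of any motive made from a motive `M` by tensor
operations) such that the eigenvalues of the Frobenius elements on `E` are in the groups `H F`, from
which the quotients `β / a` and the determinants are supposed to be independent, all Tate classes in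
`(H^1(A))^{⊗ n} ⊗ E` are combinations of products of Hodge classes of degree two of `A` and of Tate
classes of `E`: so all Tate classes for `A ⊕ M` are motivated if those for `M` are.

The proof.  The Lie algebra of the operators on `T` which kill all Tate classes (with coefficients) is
normalized by the Galois group; with the help of additive functions of the isolated eigenvalue it is
shown to contain an operator of rank at most two in each block, and then, by the strong
irreducibility, the whole symplectic or general linear Lie algebra of the block; the first
fundamental theorem of invariant theory for these gives the Tate classes.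
-/

namespace Pool.Agent.Results.MP_b8862a_ag.IsolatedFrobeniusMumfordTate

open Module Pool.Agent.Y130 Pool.Agent.Y130.MT Pool.Agent.H204R3.GP

/-- The action through `χ ^ m`. -/
noncomputable def powRep {K Γ : Type} [Field K] [Group Γ] (χ : Γ →* K) (m : ℕ) :
    Representation K Γ K where
  toFun g := (χ g ^ m) • LinearMap.id
  map_one' := by
    rw [map_one, one_pow, one_smul]
    rfl
  map_mul' g h := by
    rw [map_mul, mul_pow, mul_smul]
    apply LinearMap.ext
    intro x
    change χ g ^ m • χ h ^ m • x = χ g ^ m • χ h ^ m • x
    rfl

/-- The Mumford-Tate conjecture for abelian varieties with isolated Frobenius eigenvalues, and the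
Tate classes with coefficients in any Galois representation. -/
theorem result {K : Type} [Field K] [CharZero K] [IsAlgClosed K]
    -- the complex torus `A(ℂ)` with a polarization
    {W A : Type} [AddCommGroup W] [Module ℚ W] [AddCommGroup A] [Module ℂ A] (per : W →+ A)
    (ω₀ : W →ₗ[ℚ] W →ₗ[ℚ] ℚ) (hω₀ : IsHodgeBilinear per ω₀)
    -- the Tate module
    {V : Type} [AddCommGroup V] [Module K V] [FiniteDimensional K V] (comp : W →+ V)
    {Γ : Type} [Group Γ] (ρ : Representation K Γ V) (χ : Γ →* K)
    (ω : V →ₗ[K] V →ₗ[K] K) (hnondeg : ∀ u, (∀ v, ω u v = 0) → u = 0)
    (hω : ∀ s u v, ω (ρ s u) (ρ s v) = χ s * ω u v)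
    (hωω : ∀ x y, ω (comp x) (comp y) = ((ω₀ x y : ℚ) : K))
    (hF : FaltingsEnd per comp ρ)
    -- the strongly irreducible constituents
    {T : Type} [AddCommGroup T] [Module K T] [FiniteDimensional K T] (τ : Representation K Γ T)
    (hT : SummandOfCopies τ ρ) (B : T →ₗ[K] T →ₗ[K] K) {C : Type} [Finite C]
    (U : C → Submodule K T) (star : C → C) (Δ : Subgroup Γ)
    (H : Γ → Subgroup Kˣ) (hH : ∀ F, ∃ u ∈ H F, (u : K) = χ F)
    (hU : IsolatedBlocks τ χ B U star Δ H) :
    MumfordTateStrong per comp ρ χ ∧
    ∀ (E : Type) [AddCommGroup E] [Module K E] [FiniteDimensional K E]
      (σ : Representation K Γ E), ContainsEigenvalues H χ σ →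
      TateClassesWithCoefficients per comp ρ χ σ := by
  constructor
  · refine mumfordTate_of per comp ρ χ ω hnondeg hω ω₀ hω₀ hωω hF fun m φ hφ => ?_
    have hE : ContainsEigenvalues H χ (powRep χ m) := by
      intro F
      refine ⟨hH F, fun β hβ => ?_⟩
      obtain ⟨u, hu, hu'⟩ := hH F
      obtain ⟨x, hx, hx'⟩ := hβ
      refine ⟨u ^ m, Subgroup.pow_mem _ hu m, ?_⟩
      have h1 : χ F ^ m * x = β * x := hx'
      rw [Units.val_pow_eq_pow_val, hu']
      exact mul_right_cancel₀ hx h1
    obtain ⟨Δ', hΔ', hφ'⟩ := hφ
    have h1 := forms_V (S := Fin m × Fin 2) hT hU hE (φ := φ) ⟨Δ', hΔ', fun s hs v => by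
      rw [hφ' s hs]
      rfl⟩
    refine Submodule.span_le.2 ?_ h1
    rintro _ ⟨m', e, β, w, hβ, -, rfl⟩
    have hm : m' = m := by
      have h4 := Fintype.card_congr e
      rw [Fintype.card_prod, Fintype.card_prod, Fintype.card_fin, Fintype.card_fin,
        Fintype.card_fin] at h4
      omega
    subst hm
    have h2 : (prodForm e β).smulRight w = w • mmG e β := by
      ext v
      change prodForm e β v * w = w * mmG e β v
      rw [prodForm_apply, mmG_apply, mul_comm]
    rw [SetLike.mem_coe, h2]
    exact Submodule.smul_mem _ _ (Submodule.subset_span ⟨e, β, hβ, rfl⟩)
  · intro E _ _ _ σ hσ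
    exact main per comp ω hnondeg hω ω₀ hω₀ hωω hF hT hU hσ

end Pool.Agent.Results.MP_b8862a_ag.IsolatedFrobeniusMumfordTate
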