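import Mathlib
import Pool.Agent.Y95.ZG.Mot

/-!
# The motivated Mumford-Tate conjecture for sums of level two motives and motives of abelian type

`T = T_1 ⊕ ... ⊕ T_r` is (the realization of) a motive of weight two, twisted to weight zero, over a
finitely generated field, with its polarised rational Hodge structure (for example the
transcendental part of `H^2(X)(1)`, where `X` is a surface or a product of surfaces; `c a` says to
which summand the `a`-th basis vector belongs), and `V` is any motive for which the Lie algebras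
of the Mumford-Tate group and of the monodromy group have only the Hodge types `(-1,1)`, `(0,0)`,
`(1,-1)` and the Hodge-Tate weights `-1`, `0`, `1`. By theorems of Deligne, Faltings and Andre this
is so for all `V` in the tannakian category generated by the motives of abelian varieties (for
instance for the motives of K3 surfaces and of the other known hyper-Kaehler varieties, for which
the conjecture is known).

The Hodge structure `T` is an element of `HS n` (the starting files): it consists of the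
intersection form `T.Q` and the Hodge operator `T.x`, which is `1`, `0`, `-1` on the pieces of type
`(1,-1)`, `(0,0)`, `(-1,1)`.  The condition `T.Big c p q` (the starting files) says: the only
endomorphisms of the rational Hodge structure `T` are those that are a rational scalar on each
`T_i`, the Hodge numbers of `T_i` are `(p i, q i, p i)`, and (for `p i > 1`)
`2 (p i)^2 ((p i)^2 + 1) < (q i - 2 p i) (q i + p i)`.

The theorem: if `p i > 1` and `q i` have no common factor, then the motivated Mumford-Tate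
conjecture for `V ⊕ T` (the equality of three groups; a statement on the classes in all tensor
powers) holds if and only if it holds for `V`, the determinants of the `T_i` are motivated, `T ⊗ ℚ_ℓ`
is semisimple and the Tate classes in `T ⊗ T` are combinations of the classes of the intersection
forms of the `T_i`. The only arithmetic fact used is the existence of the Hodge-Tate cocharacter
(Faltings and Sen).
-/

set_option autoImplicit false

namespace Pool.Agent.Results.MP_b8862a_ag.LevelTwoDegreeFour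

open MvPolynomial Matrix
open Pool.Agent.W544.PG (HS BD)

noncomputable section

section groups

variable {ι : Type} [Fintype ι] [DecidableEq ι]

/-- The value of a rational polynomial in the entries at a matrix. -/
def value {R : Type} [CommRing R] [Algebra ℚ R] (g : Matrix ι ι R)
    (f : MvPolynomial (ι × ι) ℚ) : R :=
  aeval (fun q : ι × ι => g q.1 q.2) f

/-- `G` is the set of complex points of an algebraic subgroup over `ℚ` of the general linear
group. -/
def IsQGroup (G : Set (Matrix ι ι ℂ)) : Prop :=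
  (∃ P : Set (MvPolynomial (ι × ι) ℚ), ∀ g, g ∈ G ↔ g.det ≠ 0 ∧ ∀ f ∈ P, value g f = 0) ∧
  1 ∈ G ∧ (∀ a ∈ G, ∀ b ∈ G, a * b ∈ G) ∧ ∀ a ∈ G, a⁻¹ ∈ G

/-- The complex points of the Mumford-Tate group: the smallest algebraic subgroup over `ℚ` which
contains `h z` for all `z`. -/
def mumfordTate (h : ℂ → Matrix ι ι ℂ) : Set (Matrix ι ι ℂ) :=
  {g | ∀ G, IsQGroup G → (∀ z, z ≠ 0 → h z ∈ G) → g ∈ G}

/-- The points over a field `R` of the algebraic group with the complex points `G`. -/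
def InGroup {R : Type} [Field R] [Algebra ℚ R] (G : Set (Matrix ι ι ℂ)) (g : Matrix ι ι R) : Prop :=
  ∀ f : MvPolynomial (ι × ι) ℚ, (∀ m ∈ G, value m f = 0) → value g f = 0

/-- The Lie algebra of the Mumford-Tate group (over the complex numbers): the tangent space at
`1`. -/
def lieMumfordTate (h : ℂ → Matrix ι ι ℂ) : Set (Matrix ι ι ℂ) :=
  {y | ∀ f : MvPolynomial (ι × ι) ℚ, (∀ m ∈ mumfordTate h, value m f = 0) →
    ∑ x : ι × ι, y x.1 x.2 * value (1 : Matrix ι ι ℂ) (pderiv x f) = 0}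

variable {ℓ : ℕ} [Fact ℓ.Prime] {Γ : Type} [Group Γ]

/-- The polynomial `f` vanishes on the image of a subgroup of finite index. -/
def Vanishes (ρ : Γ →* Matrix ι ι ℚ_[ℓ])
    (f : MvPolynomial (ι × ι) (AlgebraicClosure ℚ_[ℓ])) : Prop :=
  ∃ Δ : Subgroup Γ, Δ.FiniteIndex ∧ ∀ s ∈ Δ,
    aeval (fun q : ι × ι => algebraMap ℚ_[ℓ] (AlgebraicClosure ℚ_[ℓ]) (ρ s q.1 q.2)) f = 0

/-- The points of the identity component of the Zariski closure of `ρ(Γ)` over the algebraic
closure of `ℚ_ℓ`. -/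
def InMonodromy (ρ : Γ →* Matrix ι ι ℚ_[ℓ]) (g : Matrix ι ι (AlgebraicClosure ℚ_[ℓ])) : Prop :=
  ∀ f : MvPolynomial (ι × ι) (AlgebraicClosure ℚ_[ℓ]), Vanishes ρ f →
    aeval (fun q : ι × ι => g q.1 q.2) f = 0

/-- The Lie algebra of the monodromy group: the tangent space at `1`. -/
def lieMonodromy (ρ : Γ →* Matrix ι ι ℚ_[ℓ]) : Set (Matrix ι ι (AlgebraicClosure ℚ_[ℓ])) :=
  {y | ∀ f : MvPolynomial (ι × ι) (AlgebraicClosure ℚ_[ℓ]), Vanishes ρ f →
    ∑ x : ι × ι, y x.1 x.2 *
      aeval (fun q : ι × ι => (1 : Matrix ι ι (AlgebraicClosure ℚ_[ℓ])) q.1 q.2) (pderiv x f) = 0}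

/-- The motivated Mumford-Tate conjecture for a motive with motivic Galois group `G` (complex
points), Hodge structure `h` and Galois representation `ρ`: the Mumford-Tate group is `G`, and the
identity component of the monodromy group is `G` over `ℚ_ℓ`. -/
def MotivatedMumfordTate (h : ℂ → Matrix ι ι ℂ) (G : Set (Matrix ι ι ℂ))
    (ρ : Γ →* Matrix ι ι ℚ_[ℓ]) : Prop :=
  mumfordTate h = G ∧
    ∀ g : Matrix ι ι (AlgebraicClosure ℚ_[ℓ]), g.det ≠ 0 → (InMonodromy ρ g ↔ InGroup G g)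

end groups

variable {κ : Type} [Fintype κ] [DecidableEq κ] {n r : ℕ}

/-- A rational Hodge structure on `ℚ^κ`: the projections `e (a, b)` to the pieces of type `(a, b)`
of `ℂ^κ`; they are exchanged by complex conjugation, and the pieces of every weight are defined
over `ℚ`. -/
structure RationalHodgeStructure (κ : Type) [Fintype κ] [DecidableEq κ] where
  /-- the types which occur -/
  types : Finset (ℤ × ℤ)
  /-- the projections -/
  e : ℤ × ℤ → Matrix κ κ ℂ
  mul : ∀ a ∈ types, ∀ b ∈ types, e a * e b = if a = b then e a else 0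
  sum : ∑ a ∈ types, e a = 1
  conj : ∀ a ∈ types, a.swap ∈ types ∧ (e a).map (starRingEnd ℂ) = e a.swap
  weight : ∀ w : ℤ, ∃ P : Matrix κ κ ℚ,
    ∑ a ∈ types with a.1 + a.2 = w, e a = P.map (algebraMap ℚ ℂ)

/-- The action of `ℂ^×`: multiplication by `z ^ (-a) * conj z ^ (-b)` on the piece of type
`(a, b)`. -/
def RationalHodgeStructure.h (V : RationalHodgeStructure κ) (z : ℂ) : Matrix κ κ ℂ :=
  ∑ a ∈ V.types, (z ^ (-a.1) * starRingEnd ℂ z ^ (-a.2)) • V.e a

/-- The operator which is `a - b` on the piece of type `(a, b)`. -/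
def RationalHodgeStructure.X (V : RationalHodgeStructure κ) : Matrix κ κ ℂ :=
  ∑ a ∈ V.types, ((a.1 - a.2 : ℤ) : ℂ) • V.e a

/-- The Lie algebra of the Mumford-Tate group of `V` has only the Hodge types `(-1,1)`, `(0,0)`,
`(1,-1)`: the eigenvalues of the commutator with `V.X` on it are `-2`, `0`, `2`. -/
def RationalHodgeStructure.AbelianType (V : RationalHodgeStructure κ) : Prop :=
  ∀ y ∈ lieMumfordTate V.h, ⁅V.X, ⁅V.X, ⁅V.X, y⁆⁆⁆ = (4 : ℂ) • ⁅V.X, y⁆

/-- The action of `ℂ^×` on `V ⊕ T`: on `T` it is multiplication by `conj z / z`, `1`, `z / conj z`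
on the parts where `T.x` is `1`, `0`, `-1`. -/
def hodge (V : RationalHodgeStructure κ) (T : HS n) (z : ℂ) :
    Matrix (κ ⊕ Fin n) (κ ⊕ Fin n) ℂ :=
  fromBlocks (V.h z) 0 0 (1 + ((starRingEnd ℂ z / z - 1) / 2) • (T.x * T.x + T.x) +
    ((z / starRingEnd ℂ z - 1) / 2) • (T.x * T.x - T.x))

/-- The block of `t` with the rows and columns of colour `i`, completed by the identity. -/
def block (c : Fin n → Fin r) (i : Fin r) (t : Matrix (Fin n) (Fin n) ℂ) :
    Matrix (Fin n) (Fin n) ℂ :=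
  Matrix.of fun a b => if c a = i ∧ c b = i then t a b else if a = b then 1 else 0

/-- `G` can be the motivic Galois group of `V ⊕ T`: it is an algebraic group over `ℚ` that contains
the Mumford-Tate group and preserves `V`, the `T_i` and the intersection form. -/
structure IsMotivic (V : RationalHodgeStructure κ) (T : HS n) (c : Fin n → Fin r)
    (G : Set (Matrix (κ ⊕ Fin n) (κ ⊕ Fin n) ℂ)) : Prop where
  group : IsQGroup G
  hodge : ∀ z : ℂ, z ≠ 0 → hodge V T z ∈ G
  form : ∀ g ∈ G, ∃ (x : Matrix κ κ ℂ) (t : Matrix (Fin n) (Fin n) ℂ), g = fromBlocks x 0 0 t ∧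
    tᵀ * T.Q.map (algebraMap ℚ ℂ) * t = T.Q.map (algebraMap ℚ ℂ) ∧ BD c t

/-- The image of `G` in the general linear group of `V`. -/
def first (G : Set (Matrix (κ ⊕ Fin n) (κ ⊕ Fin n) ℂ)) : Set (Matrix κ κ ℂ) :=
  {x | ∃ t : Matrix (Fin n) (Fin n) ℂ, fromBlocks x 0 0 t ∈ G}

/-- The determinants of the `T_i` are motivated: `G` acts on the `T_i` with determinant `1`. -/
def MotivatedDeterminants (c : Fin n → Fin r)
    (G : Set (Matrix (κ ⊕ Fin n) (κ ⊕ Fin n) ℂ)) : Prop :=
  ∀ (x : Matrix κ κ ℂ) (t : Matrix (Fin n) (Fin n) ℂ), fromBlocks x 0 0 t ∈ G →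
    ∀ i, (block c i t).det = 1

variable {ℓ : ℕ} [Fact ℓ.Prime] {Γ : Type} [Group Γ]

/-- The representation `α ⊕ β` of the Galois group on `V ⊕ T`. -/
def galois (α : Γ →* Matrix κ κ ℚ_[ℓ]) (β : Γ →* Matrix (Fin n) (Fin n) ℚ_[ℓ]) :
    Γ →* Matrix (κ ⊕ Fin n) (κ ⊕ Fin n) ℚ_[ℓ] where
  toFun σ := fromBlocks (α σ) 0 0 (β σ)
  map_one' := (Pool.Agent.Y95.ZG.tot2 α β).map_one
  map_mul' := (Pool.Agent.Y95.ZG.tot2 α β).map_mul

/-- The intersection form over `ℚ_ℓ`. -/
def form (ℓ : ℕ) [Fact ℓ.Prime] (T : HS n) : Matrix (Fin n) (Fin n) ℚ_[ℓ] :=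
  T.Q.map (algebraMap ℚ ℚ_[ℓ])

/-- The Hodge-Tate cocharacter: the monodromy group contains a one-parameter group which acts on
`V` with the eigenvalues `z ^ k`, `k` in `S` (`e k` is the projection to the eigenspace), and on
`T_i` with the eigenvalues `z`, `1`, `z⁻¹` of multiplicities `p i`, `q i`, `p i` (`P`, `M` are the
projections to the eigenspaces of `z` and `z⁻¹`); its weights on the Lie algebra of the monodromy
group of `V` are `-1`, `0`, `1`. -/
def HodgeTate (c : Fin n → Fin r) (p : Fin r → ℕ) (α : Γ →* Matrix κ κ ℚ_[ℓ])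
    (β : Γ →* Matrix (Fin n) (Fin n) ℚ_[ℓ]) : Prop :=
  ∃ (S : Finset ℤ) (e : ℤ → Matrix κ κ (AlgebraicClosure ℚ_[ℓ]))
    (P M : Matrix (Fin n) (Fin n) (AlgebraicClosure ℚ_[ℓ])),
    (∀ a ∈ S, ∀ b ∈ S, e a * e b = if a = b then e a else 0) ∧ ∑ a ∈ S, e a = 1 ∧
    (∀ y ∈ lieMonodromy α, ⁅∑ k ∈ S, (k : AlgebraicClosure ℚ_[ℓ]) • e k,
      ⁅∑ k ∈ S, (k : AlgebraicClosure ℚ_[ℓ]) • e k,
      ⁅∑ k ∈ S, (k : AlgebraicClosure ℚ_[ℓ]) • e k, y⁆⁆⁆ =
      ⁅∑ k ∈ S, (k : AlgebraicClosure ℚ_[ℓ]) • e k, y⁆) ∧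
    P * P = P ∧ M * M = M ∧ P * M = 0 ∧ M * P = 0 ∧
    (∀ i, ∑ a with c a = i, P a a = (p i : AlgebraicClosure ℚ_[ℓ])) ∧
    (∀ i, ∑ a with c a = i, M a a = (p i : AlgebraicClosure ℚ_[ℓ])) ∧
    ∀ z : AlgebraicClosure ℚ_[ℓ], z ≠ 0 → InMonodromy (galois α β)
      (fromBlocks (∑ k ∈ S, z ^ k • e k) 0 0 (1 + (z - 1) • P + (z⁻¹ - 1) • M))

/-- The representation `β` is semisimple: stable subspaces have stable complements. -/
def Semisimple (β : Γ →* Matrix (Fin n) (Fin n) ℚ_[ℓ]) : Prop :=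
  ∀ W : Submodule ℚ_[ℓ] (Fin n → ℚ_[ℓ]), (∀ σ, ∀ w ∈ W, β σ *ᵥ w ∈ W) →
    ∃ W' : Submodule ℚ_[ℓ] (Fin n → ℚ_[ℓ]), (∀ σ, ∀ w ∈ W', β σ *ᵥ w ∈ W') ∧ IsCompl W W'

/-- The Tate classes in `T ⊗ T` are combinations of the classes of the intersection forms of the
`T_i`: every bilinear form on `T ⊗ ℚ_ℓ` that is invariant under a subgroup of finite index is a
combination of these forms. -/
def TateForms (T : HS n) (c : Fin n → Fin r) (β : Γ →* Matrix (Fin n) (Fin n) ℚ_[ℓ]) : Prop :=
  ∀ Δ : Subgroup Γ, Δ.FiniteIndex → ∀ F : Matrix (Fin n) (Fin n) ℚ_[ℓ],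
    (∀ σ ∈ Δ, (β σ)ᵀ * F * β σ = F) →
    ∃ z : Fin r → ℚ_[ℓ], ∀ a b, F a b = z (c a) * form ℓ T a b

/-- **The motivated Mumford-Tate conjecture for `V ⊕ T` is equivalent to the conjecture for `V`
together with statements on `T` and `T ⊗ T`.** -/
theorem result (T : HS n) (c : Fin n → Fin r) (p q : Fin r → ℕ) (hT : T.Big c p q)
    (hp : ∀ i, 2 ≤ p i) (hpq : ∀ i, Nat.Coprime (p i) (q i))
    (V : RationalHodgeStructure κ) (hV : V.AbelianType)
    (G : Set (Matrix (κ ⊕ Fin n) (κ ⊕ Fin n) ℂ)) (hG : IsMotivic V T c G)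
    (α : Γ →* Matrix κ κ ℚ_[ℓ]) (β : Γ →* Matrix (Fin n) (Fin n) ℚ_[ℓ])
    (hβ : ∀ σ, (β σ)ᵀ * form ℓ T * β σ = form ℓ T) (hc : ∀ σ, BD c (β σ))
    (hHT : HodgeTate c p α β) :
    MotivatedMumfordTate (hodge V T) G (galois α β) ↔
      MotivatedMumfordTate V.h (first G) α ∧ MotivatedDeterminants c G ∧
        Semisimple β ∧ TateForms T c β := by
  obtain ⟨S, e, P, M, h1, h2, h3, h4, h5, h6, h7, h8, h9, h10⟩ := hHT
  have hmain := Pool.Agent.Y95.ZG.main_gen (T := T) (c := c) (p := p) (q := q) (v := α) (β := β)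
    (S := S) (E := e) (P := P) (N := M) hT hp hpq
    ⟨V.types, V.e, V.mul, V.sum, V.conj, V.weight⟩ hV ⟨hβ, hc⟩ ⟨h1, h2⟩ h3 h4 h5 h6 h7 h8 h9 h10
  have h11 := Pool.Agent.Y95.ZG.mot (T := T) (c := c) (p := p) (q := q) (v := α) (β := β) hT hp
    ⟨V.types, V.e, V.mul, V.sum, V.conj, V.weight⟩ hV hmain (G := G) hG.group hG.hodge hG.form
  refine Iff.trans h11 (and_congr_right fun _ => and_congr_right fun _ =>
    and_congr_right fun _ => ?_)
  exact Pool.Agent.Y95.ZG.Com_iff hT.bQ hβ hc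

end

end Pool.Agent.Results.MP_b8862a_ag.LevelTwoDegreeFour
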