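import Mathlib
import Pool.Agent.Y114.MU.Main

/-!
# Tate classes are motivated, at every prime `ℓ`, for motives with maximally unipotent monodromy

Let `M i` be finitely many objects of the category of motives of André over a number field `F`, pure
of the same weight `w`, with polarizations which are alternating forms (`w` is odd); `V ℓ i` is the
`ℓ`-adic realization of `M i`, of dimension `n i`, with the action `ρ ℓ i` of the absolute Galois
group of `F`, `ω ℓ i` is the alternating form given by the polarization (a motivated class), and
`χ ℓ` the power with exponent `- w` of the cyclotomic character.  Nothing is assumed on the
semisimplicity of the Galois action, on the endomorphisms or on the Hodge numbers of the `M i`.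

Let `ℓ` be a prime.  Suppose that

* there are three primes `p ≠ ℓ`, unramified in `F`, such that the `M i` have good reduction at the
  places above `p`, with Frobenius polynomials in `ℚ[X]` which are pure of weight `w`;
* for every `i` there is a prime `p ≠ ℓ`, unramified in `F`, such that at each place above `p`
  the motive `M i` has good reduction or maximally unipotent monodromy (inertia acts unipotently and
  some element `τ` of the inertia group with only one Jordan block, so that `N ^ (n i - 1) ≠ 0` for
  the monodromy operator `N`); and at one place above `p` the monodromy of `M i` is maximally
  unipotent and that of the other `M j` with `n j = n i` is not;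
* if `n i ≥ 4`, there is ONE place `v` of good reduction such that three Frobenius eigenvalues of
  `M i` are multiplicatively independent.

Theorem.  Then `V ℓ = ⊕ V ℓ i` is semisimple for all subgroups of finite index, and all homomorphisms
`V ℓ ^ {⊗ s} (c) → V ℓ ^ {⊗ t} (d)` of representations of subgroups of finite index are linear
combinations of contractions and products with the polarizations of the `M i`.  In particular all
Tate classes in the tensor category generated by the `M i` are combinations of motivated classes:
for `M = ⊕ M i` the last equality of the conjecture holds, the connected component of the `ℓ`-adic
monodromy group is the motivic Galois group; it is the group of similitudes of the polarizations of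
the `M i` with a common factor.  If the second and third conditions hold with primes `p` of two
different residue characteristics this is so for ALL primes `ℓ`.

The third condition cannot be omitted: for `M = Sym ^ (n - 1) H^1(E)`, where `E` is an elliptic curve
with a place of multiplicative reduction, any three Frobenius eigenvalues are dependent and there are
Tate classes which are not generated by the polarization.  No Frobenius torus of maximal rank
is needed.  Examples are direct sums of motives in one-parameter families of Calabi-Yau type (Dwork
families, mirror quintics and the other hypergeometric families with symplectic monodromy) at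
parameters in `F` which are congruent to the cusp modulo a prime.

The proof.  (1) Irreducibility.  The determinant of a stable subspace `W` of `V ℓ i` is a character
with algebraic Frobenius values at three primes, so that its transfer to `ℚ` is, up to finite order, a
power of the cyclotomic character (a theorem in the library `Pool.Agent.Y115`, which rests on the
`ℓ`-adic six exponentials theorem).  At a place of maximally unipotent monodromy `W` is the kernel of
a power of `N`; so its determinant has weight `d (w - (n i - d))` there, `d = dim W`, but weight
`d w` at the places of good reduction.  So `d = 0` or `d = n i`.  (2) The Lie algebra `L` of the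
endomorphisms of `V ℓ` which kill all Tate classes contains the logarithms of the unipotent elements
`τ`.  An irreducible subalgebra of `𝔰𝔭(V ℓ i)` which contains a nilpotent element with one Jordan
block is spanned by a principal triple or it is `𝔰𝔭(V ℓ i)`: if it contains `N ^ m` for some
`m > 1`, it contains `N ^ 3` (the scalar product of `[N ^ m, f ^ m]` with `(ad f) ^ 3 (N ^ 3)` is
computed by a telescoping sum, a product with the odd number `3 n ^ 2 + 3 - 5 m (m + 1)`), and then
the diagonal torus.  A group which normalizes a principal triple has no element with three
independent eigenvalues.  (3) The algebras `𝔰𝔭(V ℓ i)` are separated by the logarithms, so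
`L` is their product; the first fundamental theorem gives the result.
-/

set_option autoImplicit false

namespace Pool.Agent.Results.MP_b8862a_ag.MaximallyUnipotent

open NumberField IsDedekindDomain Polynomial Pool.Agent.Y114.TF Pool.Agent.Y114.GF
  Pool.Agent.Y114.MU

theorem result {F : Type} [Field F] [NumberField F] {ι : Type} [Fintype ι] {n : ι → ℕ}
    -- the `ℓ`-adic realizations of the `M i`, of weight `w`, and their polarizations
    (R : Realizations n Gal(AlgebraicClosure F/F)) (w : ℕ) (hR : IsSystem R w)
    -- places of good reduction
    (P : HeightOneSpectrum (𝓞 F) → ι → ℚ[X]) (T : Set ℕ)
    (hT : ∀ p ∈ T, p.Prime ∧ UnramifiedIn F p)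
    (hP : ∀ p ∈ T, ∀ v, Above v p → GoodAt R w v (P v))
    -- a prime `ℓ`
    (ℓ : ℕ) (hℓ : ℓ.Prime) (h3 : 3 ≤ (T \ {ℓ}).encard)
    -- places of maximally unipotent monodromy
    (hmum : ∀ i, ∃ p v, p.Prime ∧ p ≠ ℓ ∧ UnramifiedIn F p ∧ Above v p ∧
      MaxUnipotentAt R i v ∧ DistinguishedAt R i v ∧
      ∀ v', Above v' p → MaxUnipotentAt R i v' ∨ GoodFor R w i v')
    -- three independent Frobenius eigenvalues
    (hind : ∀ i, 4 ≤ n i → ∃ p ∈ T, p ≠ ℓ ∧ ∃ v, Above v p ∧ ThreeIndependent (P v i)) :
    R.TateAt ℓ :=
  tateAt R hR hℓ T h3 hT hP hmum hind

end Pool.Agent.Results.MP_b8862a_ag.MaximallyUnipotent
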