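import Mathlib
import Pool.Agent.Y114.OP.Complete

/-!
# Motives over `ℚ` with connected monodromy: one prime and every prime

Let `M i` (`i` in a finite set) be pure motives over `ℚ` for motivated cycles (André), `ρ ℓ i` the
`ℓ`-adic realization of `M i`, for ALL prime numbers `ℓ`, pure of weight `w i`, and `V ℓ` the direct
sum of the realizations.  Let `𝔤 ℓ` be the Lie algebra of the motivic Galois group of the direct sum
of the `M i` (tensored with `ℚ_ℓ`), of rank at most `r`; the structure `IsMotivic` states its
properties (it is reductive, algebraic, respects the sum and kills only Tate tensors).  Outside a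
finite set `S` of primes `v` the `M i` have good reduction, with the same Frobenius polynomials
`P v i` in `ℚ[X]` for all `ℓ`, pure of weight `w i`, and the roots times `q ^ c` are algebraic integers
(`q` the residue characteristic, `c` a constant for the Tate twist).

Suppose that at ONE prime number `ℓ₀` the Zariski closure of the image of the Galois group is
connected and has rank `r` (`ConnectedOfRank`): a dense set of elements `γ` of the Galois group of `ℚ`
has eigenvalues on `V ℓ₀` which generate a torsion free group which contains `r` multiplicatively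
independent eigenvalues.

Theorem.  Then for EVERY prime number `ℓ`

* the representation `V ℓ` is semisimple (for all subgroups of finite index),
* every endomorphism of `V ℓ` which commutes with a subgroup of finite index of the Galois group
  commutes with the Galois group,
* the Lie algebra `𝔥` of the endomorphisms which kill all Tate tensors is a reductive subalgebra of
  `𝔤 ℓ` of the same rank `r`, and its centre acts by scalars on every `M i`,
* if every reductive subalgebra of `𝔤 ℓ` of the same rank is the centralizer in `𝔤 ℓ` of its centre
  (this is so if the simple factors of `𝔤 ℓ` are of type A), or if the endomorphisms of `V ℓ` which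
  commute with a subgroup of finite index commute with `𝔤 ℓ`, then `𝔥 = 𝔤 ℓ`: the Tate tensors of ALL
  degrees on `V ℓ` are the tensors killed by `𝔤 ℓ`, they are motivated.

So for motives over `ℚ` with connected `ℓ`-adic monodromy group whose motivic Galois group is of type
A, the second equality of Q1 holds at EVERY `ℓ` if only the rank of the monodromy group is right at ONE
prime number `ℓ₀`.

The proof.  (1) For good `v` all multiplicative relations between the roots of the `P v i` follow from
bounded ones, with constants independent of `v` (`S_REL`), and bounded relations are locally constant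
in the `ℓ₀`-adic topology (`S_ROOT`).  So by Chebotarev's theorem every open subset of the Galois group
(for the topology of any number field, and together with the `ℓ`-adic topology for the given `ℓ`)
contains Frobenius elements of places `v` with torsion free Frobenius groups of rank `r`.  (2) By the
theorem on Frobenius tori of maximal rank (`semi_gen`, from the library `Pool.Agent.Y114.RM`; it uses
an `ℓ`-adic six exponentials theorem) `V ℓ` is semisimple and the Lie algebra `L` of the Tate tensors
contains a Cartan subalgebra of `𝔤 ℓ`, and an element of the commutant of a subgroup of finite index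
commutes with Frobenius elements with torsion free eigenvalue groups as in (1), hence with the Galois
group (`S_PW`).  (3) A central element of `L` generates, with its blocks, a commutative algebra on
which the Frobenius elements at `v` act through characters unramified outside a finite set; over `ℚ`
the characters with values in products of roots of the `P v i` are powers of the cyclotomic character
(`S_CTR`, by comparing three places), so that the centre acts by scalars.  (4) If `L` is the
centralizer in `𝔤 ℓ` of its centre, it is `𝔤 ℓ`.  (5) If the endomorphisms of `V ℓ` are those of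
`𝔤 ℓ`, then the roots of `𝔤 ℓ` are in the lattice generated by the roots of `L`, and a closed
symmetric set of roots consists of all roots in its lattice (`S_LAT`).
-/

set_option autoImplicit false

namespace Pool.Agent.Results.MP_b8862a_ag.OnePrimeTypeA

open NumberField IsDedekindDomain Polynomial Module Pool.Agent.Y114.TF Pool.Agent.Y114.GF
  Pool.Agent.Y114.MU Pool.Agent.Y114.RM Pool.Agent.Y114.OP Pool.Agent.H204R3.GP

theorem result {ι : Type} [Fintype ι] [DecidableEq ι] {n : ι → ℕ}
    -- the `ℓ`-adic realizations of motives over `ℚ` of weights `w i`, for all prime numbers `ℓ`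
    (ρ : ∀ (ℓ : ℕ) [Fact ℓ.Prime], Reps Gal(AlgebraicClosure ℚ/ℚ) n ℓ)
    (hρ : ∀ (ℓ : ℕ) [Fact ℓ.Prime], Conts (ρ ℓ)) (w : ι → ℤ)
    -- the Lie algebra of the motivic Galois group, of rank at most `r`
    (𝔤 : ∀ (ℓ : ℕ) [Fact ℓ.Prime], EndSpace n ℓ)
    (h𝔤 : ∀ (ℓ : ℕ) [Fact ℓ.Prime], Motivic (ρ ℓ) (𝔤 ℓ)) (r : ℕ)
    (hrank : ∀ (ℓ : ℕ) [Fact ℓ.Prime], RankLE (𝔤 ℓ) r)
    -- good reduction outside a finite set
    (S : Set (HeightOneSpectrum (𝓞 ℚ))) (hS : S.Finite)
    (P : HeightOneSpectrum (𝓞 ℚ) → ι → ℚ[X])
    (hP : ∀ v ∉ S, ∀ (ℓ : ℕ) [Fact ℓ.Prime], ¬ Above v ℓ → ∀ i,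
      GoodReduction (ρ ℓ) i (w i) v (P v i))
    (c : ℕ) (hc : ∀ v ∉ S, ∀ i, ∀ a ∈ (P v i).aroots ℂ, IsIntegral ℤ ((q v : ℂ) ^ c * a))
    -- at one prime number `ℓ₀` the monodromy group is connected of rank `r`
    (ℓ₀ : ℕ) [Fact ℓ₀.Prime] (hcon : ConnectedOfRank (ρ ℓ₀) r) :
    ∀ (ℓ : ℕ) [Fact ℓ.Prime], Semisimple (ρ ℓ) ∧ EndConnected (ρ ℓ) ∧
      (∃ 𝔥 : EndSpace n ℓ, KillsTateTensors (ρ ℓ) 𝔥 ∧ ReductiveOfRank (𝔤 ℓ) 𝔥 r ∧
        CentreScalar 𝔥) ∧
      (EqualRankLevi (𝔤 ℓ) r ∨ EndTate (ρ ℓ) (𝔤 ℓ) → TateTensorsOf (ρ ℓ) (𝔤 ℓ)) := by
  intro ℓ _
  exact Pool.Agent.Y114.OP.one_prime_rat hρ h𝔤 hrank hS hP hc ℓ₀ hcon ℓ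

end Pool.Agent.Results.MP_b8862a_ag.OnePrimeTypeA
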